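import Pool.Agent.R804.OrdSol.Ord

/-! Approximation of the powers of an element modulo a normal subgroup `A`. -/

set_option autoImplicit false
set_option linter.unusedSectionVars false

open scoped commutatorElement

namespace Pool.Agent.R804.OrdSol

universe u

variable {G : Type u} [Group G] [LinearOrder G] [MulLeftMono G] [MulRightMono G]

omit [LinearOrder G] [MulLeftMono G] [MulRightMono G] in
theorem mk_comm_iff (A : Subgroup G) [A.Normal] (x y : G) :
    (x : G ⧸ A) * y = y * x ↔ ⁅x, y⁆ ∈ A := by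
  rw [← QuotientGroup.eq_one_iff, commutatorElement_def, QuotientGroup.mk_mul,
    QuotientGroup.mk_mul, QuotientGroup.mk_mul, QuotientGroup.mk_inv, QuotientGroup.mk_inv]
  constructor
  · intro h; rw [h]; group
  · intro h
    have : (x : G ⧸ A) * y * (x : G ⧸ A)⁻¹ * (y : G ⧸ A)⁻¹ * (y * x) = 1 * (y * x) := by rw [h]
    simpa [mul_assoc] using this

/-- some element which is congruent to a positive power of `x` modulo `A` is below `z` -/
def App (A : Subgroup G) [A.Normal] (x z : G) : Prop :=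
  ∃ (s : G) (n : ℕ), n ≠ 0 ∧ (s : G ⧸ A) = (x : G ⧸ A) ^ n ∧ Le s z

variable {A : Subgroup G} [A.Normal]

theorem App.self (x : G) : App A x x := ⟨x, 1, one_ne_zero, by simp, Le.refl x⟩

theorem App.mono {x z z' : G} (h : App A x z) (h' : Le z z') : App A x z' := by
  obtain ⟨s, n, hn, hs, hz⟩ := h
  exact ⟨s, n, hn, hs, hz.trans h'⟩

theorem App.congr {x y z : G} (h : App A x z) (hxy : (x : G ⧸ A) = y) : App A y z := by
  obtain ⟨s, n, hn, hs, hz⟩ := h
  exact ⟨s, n, hn, by rw [hs, hxy], hz⟩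

theorem App.of_pow {x z : G} {N : ℕ} (hN : N ≠ 0) (h : App A (x ^ N) z) : App A x z := by
  obtain ⟨s, n, hn, hs, hz⟩ := h
  exact ⟨s, N * n, mul_ne_zero hN hn, by rw [hs, QuotientGroup.mk_pow, pow_mul], hz⟩

theorem App.pow {x z : G} {N : ℕ} (h : App A x z) : App A (x ^ N) z := by
  obtain ⟨s, n, hn, hs, hz⟩ := h
  exact ⟨s ^ N, n, hn, by
    rw [QuotientGroup.mk_pow, QuotientGroup.mk_pow, hs, ← pow_mul, ← pow_mul, mul_comm], hz.pow N⟩

theorem App.inv {x z : G} (h : App A x z) : App A x⁻¹ z := by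
  obtain ⟨s, n, hn, hs, hz⟩ := h
  exact ⟨s⁻¹, n, hn, by rw [QuotientGroup.mk_inv, QuotientGroup.mk_inv, hs, inv_pow], hz.inv⟩

theorem App.mul {x y z : G} (hxy : (x : G ⧸ A) * y = y * x) (h : App A x z) (h' : App A y z) :
    App A (x * y) z := by
  obtain ⟨s, n, hn, hs, hz⟩ := h
  obtain ⟨t, m, hm, ht, hz'⟩ := h'
  refine ⟨s ^ m * t ^ n, n * m, mul_ne_zero hn hm, ?_, (hz.pow m).mul (hz'.pow n)⟩
  have hc : Commute (x : G ⧸ A) (y : G ⧸ A) := hxy
  rw [QuotientGroup.mk_mul, QuotientGroup.mk_pow, QuotientGroup.mk_pow, hs, ht, ← pow_mul,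
    ← pow_mul, QuotientGroup.mk_mul, hc.mul_pow, mul_comm m n]

theorem App.conj {x z : G} (g : G) (h : App A x z) : App A (g * x * g⁻¹) (g * z * g⁻¹) := by
  obtain ⟨s, n, hn, hs, hz⟩ := h
  refine ⟨g * s * g⁻¹, n, hn, ?_, hz.conj g⟩
  rw [QuotientGroup.mk_mul, QuotientGroup.mk_mul, QuotientGroup.mk_mul, QuotientGroup.mk_mul, hs,
    QuotientGroup.mk_inv, conj_pow]

theorem App.conj_iff {x z : G} (g : G) : App A (g * x * g⁻¹) (g * z * g⁻¹) ↔ App A x z := by
  refine ⟨fun h => ?_, fun h => h.conj g⟩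
  have := h.conj g⁻¹
  simpa [mul_assoc] using this

/-- If every element of `M` is approximable everywhere, `M` is commutative. -/
theorem comm_of_app (M : Subgroup G) [M.Normal]
    (hMA : ∀ x ∈ M, ∀ y ∈ M, ⁅x, y⁆ ∈ A) (hA : ∀ a ∈ A, ∀ b ∈ A, Commute a b)
    (h : ∀ x ∈ M, ∀ z : G, z ≠ 1 → App A x z) : ∀ x ∈ M, ∀ y ∈ M, Commute x y := by
  -- `M` centralises `A`
  have h1 : ∀ x ∈ M, ∀ k ∈ A, Commute x k := by
    intro x hx k hk
    by_contra hcon
    set w : G := x * k * x⁻¹ * k⁻¹ with hw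
    have hw1 : w ≠ 1 := by
      intro h0
      apply hcon
      rw [hw, mul_inv_eq_one, mul_inv_eq_iff_eq_mul] at h0
      exact h0
    obtain ⟨s, n, hn, hs, hsw⟩ := h x hx w hw1
    have hsA : s * (x ^ n)⁻¹ ∈ A := by
      rw [← QuotientGroup.eq_one_iff, QuotientGroup.mk_mul, QuotientGroup.mk_inv, hs,
        QuotientGroup.mk_pow, mul_inv_cancel]
    by_cases hs1 : s = 1
    · subst hs1
      rw [one_mul] at hsA
      have h2 : Commute (x ^ n) k := by
        have := hA _ (A.inv_mem hsA) k hk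
        rwa [inv_inv] at this
      exact hcon (commute_of_pow hn h2)
    · -- `s = a x^n`
      set a : G := s * (x ^ n)⁻¹ with ha
      have hsa : s = a * x ^ n := by rw [ha, inv_mul_cancel_right]
      have hkn : x ^ n * k * (x ^ n)⁻¹ ∈ A := Subgroup.Normal.conj_mem inferInstance k hk _
      have hconj : s * k * s⁻¹ = x ^ n * k * (x ^ n)⁻¹ := by
        rw [hsa]
        have h3 := hA a hsA _ hkn
        calc a * x ^ n * k * (a * x ^ n)⁻¹ = a * (x ^ n * k * (x ^ n)⁻¹) * a⁻¹ := by group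
          _ = x ^ n * k * (x ^ n)⁻¹ := by rw [h3.eq, mul_inv_cancel_right]
      set c : G := k * (x ^ n * k * (x ^ n)⁻¹)⁻¹ with hc
      have hcA : c ∈ A := A.mul_mem hk (A.inv_mem hkn)
      have e1 : k * s * k⁻¹ = c * s := by
        rw [hc, ← hconj]; group
      have e2 := not_le_of_comm hs1 e1 (hA c hcA k hk)
      apply e2
      refine hsw.trans ?_
      -- `w ≤ c⁻¹` in absolute value
      have e3 : Le w c⁻¹ := by
        have e4 : c⁻¹ = x ^ n * k * (x ^ n)⁻¹ * k⁻¹ := by rw [hc]; group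
        obtain ⟨m, rfl⟩ := Nat.exists_eq_succ_of_ne_zero hn
        rcases lt_or_gt_of_ne (fun h0 : x * k * x⁻¹ = k => hw1 (by rw [hw, h0, mul_inv_cancel]))
          with hlt | hlt
        · -- `x k x⁻¹ < k`
          have e5 : ∀ m : ℕ, x ^ (m + 1) * k * (x ^ (m + 1))⁻¹ ≤ x * k * x⁻¹ := by
            intro m
            induction m with
            | zero => simp
            | succ m ih =>
              have := conj_le_conj x (ih.trans hlt.le)
              rwa [show x * (x ^ (m + 1) * k * (x ^ (m + 1))⁻¹) * x⁻¹ =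
                x ^ (m + 1 + 1) * k * (x ^ (m + 1 + 1))⁻¹ by rw [pow_succ' x (m + 1)]; group] at this
          have e6 : c⁻¹ ≤ w := by
            rw [e4, hw]
            exact mul_le_mul_left (e5 m) k⁻¹
          have e7 : w ≤ 1 := by
            rw [hw]
            have := mul_le_mul_left hlt.le k⁻¹
            rwa [mul_inv_cancel] at this
          exact Le.between (Le.refl _) (Le.one _) e6 e7
        · have e5 : ∀ m : ℕ, x * k * x⁻¹ ≤ x ^ (m + 1) * k * (x ^ (m + 1))⁻¹ := by
            intro m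
            induction m with
            | zero => simp
            | succ m ih =>
              have := conj_le_conj x (hlt.le.trans ih)
              rwa [show x * (x ^ (m + 1) * k * (x ^ (m + 1))⁻¹) * x⁻¹ =
                x ^ (m + 1 + 1) * k * (x ^ (m + 1 + 1))⁻¹ by rw [pow_succ' x (m + 1)]; group] at this
          have e6 : w ≤ c⁻¹ := by
            rw [e4, hw]
            exact mul_le_mul_left (e5 m) k⁻¹
          have e7 : 1 ≤ w := by
            rw [hw]
            have := mul_le_mul_left hlt.le k⁻¹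
            rwa [mul_inv_cancel] at this
          exact Le.between (Le.one _) (Le.refl _) e7 e6
      have := e3.inv_right
      rwa [inv_inv] at this
  -- `M` is commutative
  intro x hx y hy
  by_contra hcon
  set w : G := y * x * y⁻¹ * x⁻¹ with hw
  have hwA : w ∈ A := hMA y hy x hx
  have hw1 : w ≠ 1 := by
    intro h0
    apply hcon
    rw [hw, mul_inv_eq_one, mul_inv_eq_iff_eq_mul] at h0
    exact h0.symm
  obtain ⟨s, n, hn, hs, hsw⟩ := h x hx w hw1
  have hsA : s * (x ^ n)⁻¹ ∈ A := by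
    rw [← QuotientGroup.eq_one_iff, QuotientGroup.mk_mul, QuotientGroup.mk_inv, hs,
      QuotientGroup.mk_pow, mul_inv_cancel]
  by_cases hs1 : s = 1
  · subst hs1
    rw [one_mul] at hsA
    have h2 : Commute (x ^ n) y := by
      have := h1 y hy _ (A.inv_mem hsA)
      rw [inv_inv] at this
      exact this.symm
    exact hcon (commute_of_pow hn h2)
  · set a : G := s * (x ^ n)⁻¹ with ha
    have hsa : s = a * x ^ n := by rw [ha, inv_mul_cancel_right]
    have e0 : y * x * y⁻¹ = w * x := by rw [hw]; group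
    have e1 : y * x ^ n * y⁻¹ = w ^ n * x ^ n := by
      rw [← conj_pow, e0]
      exact (h1 x hx w hwA).symm.mul_pow n
    have e2 : y * s * y⁻¹ = w ^ n * s := by
      have e3 : y * a * y⁻¹ = a := by
        rw [(h1 y hy a hsA).eq, mul_inv_cancel_right]
      have e4 : a * w ^ n = w ^ n * a := ((hA a hsA w hwA).pow_right n).eq
      calc y * s * y⁻¹ = (y * a * y⁻¹) * (y * x ^ n * y⁻¹) := by rw [hsa]; group
        _ = a * (w ^ n * x ^ n) := by rw [e3, e1]
        _ = (a * w ^ n) * x ^ n := by group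
        _ = w ^ n * (a * x ^ n) := by rw [e4]; group
        _ = w ^ n * s := by rw [← hsa]
    have e3 := not_le_of_comm hs1 e2 ((h1 y hy w hwA).symm.pow_left n)
    exact e3 (hsw.trans (Le.self_pow w hn))

end Pool.Agent.R804.OrdSol
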