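import Pool.Agent.R804.OrdSol.Zorn

/-! Bi-invariant orders and relative positive cones. -/

set_option autoImplicit false

namespace Pool.Agent.R804.OrdSol

open scoped commutatorElement

universe u

/-- `r` is a total order on the group `G`, invariant under multiplication on both sides. -/
structure IsBiOrder {G : Type u} [Group G] (r : G → G → Prop) : Prop where
  refl : ∀ a, r a a
  trans : ∀ a b c, r a b → r b c → r a c
  antisymm : ∀ a b, r a b → r b a → a = b
  total : ∀ a b, r a b ∨ r b a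
  mul_left : ∀ a b c, r a b → r (c * a) (c * b)
  mul_right : ∀ a b c, r a b → r (a * c) (b * c)

/-- `G` admits a bi-invariant total order. -/
def LinearlyOrderable (G : Type u) [Group G] : Prop := ∃ r : G → G → Prop, IsBiOrder r

/-- `H` is convex for at least one bi-invariant total order of `G`. -/
def RelativelyConvex {G : Type u} [Group G] (H : Subgroup G) : Prop :=
  ∃ r : G → G → Prop, IsBiOrder r ∧
    ∀ h₁ ∈ H, ∀ h₂ ∈ H, ∀ g : G, r h₁ g → r g h₂ → g ∈ H

/-- `P` is the set of elements that are positive modulo the subgroup `K`. -/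
structure RelCone {G : Type u} [Group G] (K : Subgroup G) (P : Set G) : Prop where
  mul : ∀ a ∈ P, ∀ b ∈ P, a * b ∈ P
  conj : ∀ a ∈ P, ∀ g : G, g * a * g⁻¹ ∈ P
  tri : ∀ a : G, a ∈ K ∨ a ∈ P ∨ a⁻¹ ∈ P
  nmem : ∀ a ∈ P, a ∉ K

variable {G : Type u} [Group G]

namespace RelCone

variable {K : Subgroup G} {P : Set G}

theorem asym (hP : RelCone K P) {a : G} (ha : a ∈ P) : a⁻¹ ∉ P := by
  intro h
  have := hP.mul _ ha _ h
  rw [mul_inv_cancel] at this
  exact hP.nmem _ this K.one_mem

theorem mul_mem_right (hP : RelCone K P) {a k : G} (ha : a ∈ P) (hk : k ∈ K) : a * k ∈ P := by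
  rcases hP.tri (a * k) with h | h | h
  · exfalso
    have := K.mul_mem h (K.inv_mem hk)
    rw [mul_inv_cancel_right] at this
    exact hP.nmem _ ha this
  · exact h
  · exfalso
    have := hP.mul _ h _ ha
    rw [mul_inv_rev, inv_mul_cancel_right] at this
    exact hP.nmem _ this (K.inv_mem hk)

theorem mul_mem_left (hP : RelCone K P) {a k : G} (ha : a ∈ P) (hk : k ∈ K) : k * a ∈ P := by
  have h1 := hP.mul_mem_right (hP.conj a ha k) hk
  rwa [inv_mul_cancel_right] at h1

/-- A cone modulo `H` and a cone on `H` modulo `Z` give a cone modulo `Z`. -/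
theorem combine {H Z : Subgroup G} (hZH : Z ≤ H) {PH P1 : Set G} (hPH : RelCone H PH)
    (h1H : P1 ⊆ H) (hmul : ∀ a ∈ P1, ∀ b ∈ P1, a * b ∈ P1)
    (hconj : ∀ a ∈ P1, ∀ g : G, g * a * g⁻¹ ∈ P1)
    (htri : ∀ a ∈ H, a ∈ Z ∨ a ∈ P1 ∨ a⁻¹ ∈ P1) (hnmem : ∀ a ∈ P1, a ∉ Z) :
    RelCone Z (PH ∪ P1) where
  mul := by
    rintro a (ha | ha) b (hb | hb)
    · exact Or.inl (hPH.mul _ ha _ hb)
    · exact Or.inl (hPH.mul_mem_right ha (h1H hb))
    · exact Or.inl (hPH.mul_mem_left hb (h1H ha))
    · exact Or.inr (hmul _ ha _ hb)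
  conj := by
    rintro a (ha | ha) g
    · exact Or.inl (hPH.conj _ ha g)
    · exact Or.inr (hconj _ ha g)
  tri := by
    intro a
    rcases hPH.tri a with h | h | h
    · rcases htri a h with h | h | h
      · exact Or.inl h
      · exact Or.inr (Or.inl (Or.inr h))
      · exact Or.inr (Or.inr (Or.inr h))
    · exact Or.inr (Or.inl (Or.inl h))
    · exact Or.inr (Or.inr (Or.inl h))
  nmem := by
    rintro a (ha | ha) hZ
    · exact hPH.nmem _ ha (hZH hZ)
    · exact hnmem _ ha hZ

theorem isBiOrder {P : Set G} (hP : RelCone (⊥ : Subgroup G) P) :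
    IsBiOrder (fun a b : G => a = b ∨ a⁻¹ * b ∈ P) where
  refl a := Or.inl rfl
  trans a b c := by
    rintro (rfl | h1) (rfl | h2)
    · exact Or.inl rfl
    · exact Or.inr h2
    · exact Or.inr h1
    · right
      have := hP.mul _ h1 _ h2
      rwa [show a⁻¹ * b * (b⁻¹ * c) = a⁻¹ * c by group] at this
  antisymm a b := by
    rintro (rfl | h1) (h2 | h2)
    · rfl
    · rfl
    · exact h2.symm
    · exfalso
      apply hP.asym h1
      rwa [show (a⁻¹ * b)⁻¹ = b⁻¹ * a by group]
  total a b := by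
    rcases hP.tri (a⁻¹ * b) with h | h | h
    · left; left
      rw [Subgroup.mem_bot, inv_mul_eq_one] at h
      exact h
    · left; right; exact h
    · right; right
      rwa [show (a⁻¹ * b)⁻¹ = b⁻¹ * a by group] at h
  mul_left a b c := by
    rintro (rfl | h)
    · exact Or.inl rfl
    · right
      rwa [show (c * a)⁻¹ * (c * b) = a⁻¹ * b by group]
  mul_right a b c := by
    rintro (rfl | h)
    · exact Or.inl rfl
    · right
      have := hP.conj _ h c⁻¹
      rwa [show c⁻¹ * (a⁻¹ * b) * c⁻¹⁻¹ = (a * c)⁻¹ * (b * c) by group] at this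

theorem of_convex {H : Subgroup G} (hH : H.Normal) {r : G → G → Prop} (hr : IsBiOrder r)
    (hc : ∀ h₁ ∈ H, ∀ h₂ ∈ H, ∀ g : G, r h₁ g → r g h₂ → g ∈ H) :
    RelCone H {x | r 1 x ∧ x ∉ H} where
  mul := by
    rintro a ⟨ha, ha'⟩ b ⟨hb, hb'⟩
    have h1 : r a (a * b) := by
      have := hr.mul_left _ _ a hb
      rwa [mul_one] at this
    refine ⟨hr.trans _ _ _ ha h1, fun hab => ha' ?_⟩
    exact hc 1 H.one_mem _ hab a ha h1
  conj := by
    rintro a ⟨ha, ha'⟩ g
    refine ⟨?_, fun h => ha' ?_⟩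
    · have := hr.mul_right _ _ g⁻¹ (hr.mul_left _ _ g ha)
      rwa [mul_one, mul_inv_cancel] at this
    · have := hH.conj_mem _ h g⁻¹
      rwa [show g⁻¹ * (g * a * g⁻¹) * g⁻¹⁻¹ = a by group] at this
  tri := by
    intro a
    by_cases ha : a ∈ H
    · exact Or.inl ha
    · right
      rcases hr.total 1 a with h | h
      · left; exact ⟨h, ha⟩
      · right
        refine ⟨?_, fun h' => ha (by simpa using H.inv_mem h')⟩
        have := hr.mul_left _ _ a⁻¹ h
        rwa [inv_mul_cancel, mul_one] at this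
  nmem := fun a ha => ha.2

/-- With a bi-invariant order on `G`, a cone modulo the subgroup `K` makes `K` relatively
convex. -/
theorem relativelyConvex {K : Subgroup G} (hK : K.Normal) {P : Set G} (hP : RelCone K P)
    (hG : LinearlyOrderable G) : RelativelyConvex K := by
  obtain ⟨r, hr⟩ := hG
  have h0 : RelCone (⊥ : Subgroup G) {x | r 1 x ∧ x ∉ (⊥ : Subgroup G)} := by
    refine of_convex inferInstance hr fun h₁ hh₁ h₂ hh₂ g h1 h2 => ?_
    rw [Subgroup.mem_bot] at *
    subst hh₁ hh₂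
    exact hr.antisymm _ _ h2 h1
  have hc : RelCone (⊥ : Subgroup G) (P ∪ {x | x ∈ K ∧ r 1 x ∧ x ∉ (⊥ : Subgroup G)}) := by
    refine combine bot_le hP (fun x hx => hx.1) ?_ ?_ ?_ (fun x hx => hx.2.2)
    · rintro a ⟨ha, ha'⟩ b ⟨hb, hb'⟩
      exact ⟨K.mul_mem ha hb, h0.mul _ ha' _ hb'⟩
    · rintro a ⟨ha, ha'⟩ g
      exact ⟨hK.conj_mem _ ha g, h0.conj _ ha' g⟩
    · intro a ha
      rcases h0.tri a with h | h | h
      · exact Or.inl h
      · exact Or.inr (Or.inl ⟨ha, h⟩)
      · exact Or.inr (Or.inr ⟨K.inv_mem ha, h⟩)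
  refine ⟨_, hc.isBiOrder, ?_⟩
  intro h₁ hh₁ h₂ hh₂ g hg1 hg2
  by_contra hg
  have e1 : h₁⁻¹ * g ∈ P := by
    rcases hg1 with h | h | h
    · exact absurd (h ▸ hh₁) hg
    · exact h
    · exfalso
      have := K.mul_mem hh₁ h.1
      rw [mul_inv_cancel_left] at this
      exact hg this
  have e2 : g⁻¹ * h₂ ∈ P := by
    rcases hg2 with h | h | h
    · exact absurd (h ▸ hh₂) hg
    · exact h
    · exfalso
      have := K.mul_mem hh₂ (K.inv_mem h.1)
      rw [mul_inv_rev, inv_inv, mul_inv_cancel_left] at this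
      exact hg this
  have e3 := hP.mul _ e1 _ e2
  rw [show h₁⁻¹ * g * (g⁻¹ * h₂) = h₁⁻¹ * h₂ by group] at e3
  exact hP.nmem _ e3 (K.mul_mem (K.inv_mem hh₁) hh₂)

end RelCone

/-- A normal subgroup with torsion-free abelian quotient has a cone. -/
theorem relCone_of_torsionFree (N : Subgroup G) [N.Normal] (hab : ∀ x y : G, ⁅x, y⁆ ∈ N)
    (htf : ∀ (x : G) (n : ℕ), n ≠ 0 → x ^ n ∈ N → x ∈ N) : ∃ P, RelCone N P := by
  have hcomm : ∀ a b : G ⧸ N, a * b = b * a := by
    intro a b
    induction a using QuotientGroup.induction_on with | _ a => ?_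
    induction b using QuotientGroup.induction_on with | _ b => ?_
    have h1 : ((⁅a, b⁆ : G) : G ⧸ N) = 1 := (QuotientGroup.eq_one_iff _).mpr (hab a b)
    have h2 : ((a * b : G) : G ⧸ N) = ((⁅a, b⁆ * (b * a) : G) : G ⧸ N) := by
      congr 1
      rw [commutatorElement_def]; group
    rw [← QuotientGroup.mk_mul, ← QuotientGroup.mk_mul, h2, QuotientGroup.mk_mul, h1, one_mul]
  have hconj : ∀ g b : G ⧸ N, g * b * g⁻¹ = b := by
    intro g b
    rw [hcomm g b, mul_inv_cancel_right]
  obtain ⟨P, -, h1, hm, hc, ht⟩ := exists_cone (⊤ : Subgroup (G ⧸ N))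
    (fun a _ b _ => hcomm a b) (fun g h b _ => by simp only [hconj]) (by
      intro b _ hb l hl h
      have h1 : ∀ l : List (G ⧸ N), op l b = b ^ l.length := by
        intro l
        induction l with
        | nil => simp
        | cons g l ih => rw [op_cons, hconj, ih, List.length_cons, pow_succ']
      rw [h1] at h
      induction b using QuotientGroup.induction_on with | _ b => ?_
      rw [← QuotientGroup.mk_pow] at h
      have h2 := (QuotientGroup.eq_one_iff _).mp h
      have h3 := htf b l.length (by simpa using hl) h2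
      exact hb ((QuotientGroup.eq_one_iff _).mpr h3))
  refine ⟨(QuotientGroup.mk' N) ⁻¹' P, ?_, ?_, ?_, ?_⟩
  · intro a ha b hb
    show (QuotientGroup.mk' N) (a * b) ∈ P
    rw [map_mul]; exact hm _ ha _ hb
  · intro a ha g
    show (QuotientGroup.mk' N) (g * a * g⁻¹) ∈ P
    rw [map_mul, map_mul, map_inv]; exact hc _ _ ha
  · intro a
    by_cases ha : a ∈ N
    · exact Or.inl ha
    · right
      have h2 : (QuotientGroup.mk' N) a ≠ 1 := fun h => ha ((QuotientGroup.eq_one_iff _).mp h)
      rcases ht _ (Subgroup.mem_top _) h2 with h | h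
      · exact Or.inl h
      · right
        show (QuotientGroup.mk' N) a⁻¹ ∈ P
        rw [map_inv]; exact h
  · intro a ha haN
    have h2 : (QuotientGroup.mk' N) a = 1 := (QuotientGroup.eq_one_iff _).mpr haN
    have ha' : (QuotientGroup.mk' N) a ∈ P := ha
    rw [h2] at ha'
    exact h1 ha'

end Pool.Agent.R804.OrdSol
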