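import Pool.Agent.R804.OrdSol.App
import Pool.Agent.R804.OrdSol.Cone

/-! The main argument: the approximable elements. -/

set_option autoImplicit false
set_option linter.unusedSectionVars false

open scoped commutatorElement

namespace Pool.Agent.R804.OrdSol

universe u

variable {G : Type u} [Group G] [LinearOrder G] [MulLeftMono G] [MulRightMono G]

/-- If no conjugate of `x` is approximable below `z₀`, some convex normal subgroup contains `z₀`
and not `x`. -/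
theorem exists_cvx (A : Subgroup G) [A.Normal] (x z₀ : G)
    (h0 : ∀ g : G, ¬ App A (g * x * g⁻¹) z₀) :
    ∃ N : Subgroup G, N.Normal ∧ Cvx N ∧ x ∉ N ∧ z₀ ∈ N := by
  let S : Set G := {s | ∃ (g : G) (n : ℕ), n ≠ 0 ∧ (s : G ⧸ A) = ((g * x * g⁻¹ : G) : G ⧸ A) ^ n}
  have hS : (1 : G) ∉ S := by
    rintro ⟨g, n, hn, h⟩
    exact h0 g ⟨1, n, hn, h, Le.one _⟩
  have hc : ∀ s ∈ S, ∀ g : G, g * s * g⁻¹ ∈ S := by
    rintro s ⟨k, n, hn, h⟩ g
    refine ⟨g * k, n, hn, ?_⟩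
    rw [show g * k * x * (g * k)⁻¹ = g * (k * x * k⁻¹) * g⁻¹ by group]
    rw [QuotientGroup.mk_mul, QuotientGroup.mk_mul, h, QuotientGroup.mk_mul _ (g * _),
      QuotientGroup.mk_mul _ g, QuotientGroup.mk_inv, conj_pow]
  refine ⟨below S hS, below_normal S hS hc, below_cvx S hS, ?_, ?_⟩
  · intro hx
    exact hx x ⟨1, 1, one_ne_zero, by simp⟩ (Le.refl x)
  · rintro s ⟨g, n, hn, h⟩ hle
    exact h0 g ⟨s, n, hn, h, hle⟩

/-- everything approximable below `y` ... : the cut of `x` is below that of `y` -/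
def Sub (A : Subgroup G) [A.Normal] (x y : G) : Prop := ∀ z : G, z ≠ 1 → App A y z → App A x z

theorem Sub.total (A : Subgroup G) [A.Normal] (x y : G) : Sub A x y ∨ Sub A y x := by
  by_contra hcon
  push Not at hcon
  obtain ⟨h1, h2⟩ := hcon
  simp only [Sub, not_forall] at h1 h2
  obtain ⟨z, _, h3, h4⟩ := h1
  obtain ⟨z', _, h5, h6⟩ := h2
  rcases Le.total z z' with h | h
  · exact h6 (h3.mono h)
  · exact h4 (h5.mono h)

theorem conj_ne_one {z : G} (g : G) (hz : z ≠ 1) : g * z * g⁻¹ ≠ 1 := by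
  intro h
  apply hz
  rw [mul_inv_eq_one] at h
  simpa using h

theorem Sub.conj {A : Subgroup G} [A.Normal] {x y : G} (h : Sub A x y) (g : G) :
    Sub A (g * x * g⁻¹) (g * y * g⁻¹) := by
  intro z hz h1
  have e : z = g * (g⁻¹ * z * g) * g⁻¹ := by group
  rw [e] at h1 ⊢
  rw [App.conj_iff] at h1 ⊢
  refine h _ ?_ h1
  have := conj_ne_one g⁻¹ hz
  rwa [inv_inv] at this

theorem Sub.trans {A : Subgroup G} [A.Normal] {x y w : G} (h : Sub A x y) (h' : Sub A y w) :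
    Sub A x w := fun z hz h1 => h z hz (h' z hz h1)

theorem Sub.refl {A : Subgroup G} [A.Normal] (x : G) : Sub A x x := fun _ _ h => h

/-- periodic conjugations fix the cut -/
theorem sub_of_pow {A : Subgroup G} [A.Normal] {x g : G} {N : ℕ} (hN : N ≠ 0)
    (h1 : Sub A x (g ^ N * x * (g ^ N)⁻¹)) (h2 : Sub A (g ^ N * x * (g ^ N)⁻¹) x) :
    Sub A x (g * x * g⁻¹) ∧ Sub A (g * x * g⁻¹) x := by
  have hup : Sub A x (g * x * g⁻¹) → ∀ k : ℕ,
      Sub A (g * x * g⁻¹) (g ^ (k + 1) * x * (g ^ (k + 1))⁻¹) := by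
    intro h k
    induction k with
    | zero => simpa using Sub.refl _
    | succ k ih =>
      have h3 := ih
      have h4 := h.conj (g ^ (k + 1))
      refine h3.trans ?_
      rwa [show g ^ (k + 1) * (g * x * g⁻¹) * (g ^ (k + 1))⁻¹ =
        g ^ (k + 1 + 1) * x * (g ^ (k + 1 + 1))⁻¹ by rw [pow_succ g (k + 1)]; group] at h4
  have hdown : Sub A (g * x * g⁻¹) x → ∀ k : ℕ,
      Sub A (g ^ (k + 1) * x * (g ^ (k + 1))⁻¹) (g * x * g⁻¹) := by
    intro h k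
    induction k with
    | zero => simpa using Sub.refl _
    | succ k ih =>
      have h4 := h.conj (g ^ (k + 1))
      rw [show g ^ (k + 1) * (g * x * g⁻¹) * (g ^ (k + 1))⁻¹ =
        g ^ (k + 1 + 1) * x * (g ^ (k + 1 + 1))⁻¹ by rw [pow_succ g (k + 1)]; group] at h4
      exact h4.trans ih
  obtain ⟨k, rfl⟩ := Nat.exists_eq_succ_of_ne_zero hN
  rcases Sub.total A x (g * x * g⁻¹) with h | h
  · exact ⟨h, (hup h k).trans h2⟩
  · exact ⟨h1.trans (hdown h k), h⟩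

/-- the common hypotheses on the subgroups `A ≤ M ≤ H` -/
structure Setup (A M H : Subgroup G) : Prop where
  AM : A ≤ M
  MH : M ≤ H
  MA : ∀ x ∈ M, ∀ y ∈ M, ⁅x, y⁆ ∈ A
  A_comm : ∀ a ∈ A, ∀ b ∈ A, Commute a b
  GM : ∀ x y : G, ⁅x, y⁆ ∈ M
  HM : ∀ x ∈ H, ∃ n : ℕ, n ≠ 0 ∧ x ^ n ∈ M

/-- torsion abelianisation and no proper convex normal subgroup -/
theorem torsion_case (A M : Subgroup G) [A.Normal] [M.Normal] (hs : Setup A M ⊤)
    (hN : ∀ N : Subgroup G, N.Normal → Cvx N → N = ⊥ ∨ N = ⊤) : ∀ x y : G, Commute x y := by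
  have h1 : ∀ x ∈ M, ∀ z : G, z ≠ 1 → App A x z := by
    intro x hx z hz
    by_contra hcon
    have hinv : ∀ g : G, ∀ z : G, z ≠ 1 → App A (g * x * g⁻¹) z → App A x z := by
      intro g
      obtain ⟨n, hn, hgn⟩ := hs.HM g (Subgroup.mem_top g)
      have e : ((g ^ n * x * (g ^ n)⁻¹ : G) : G ⧸ A) = x := by
        have := (mk_comm_iff A (g ^ n) x).mpr (hs.MA _ hgn _ hx)
        rw [QuotientGroup.mk_mul, QuotientGroup.mk_mul, this, QuotientGroup.mk_inv,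
          mul_inv_cancel_right]
      exact (sub_of_pow hn (fun z _ h => h.congr e) (fun z _ h => h.congr e.symm)).1
    obtain ⟨N, hN1, hN2, hN3, hN4⟩ := exists_cvx A x z fun g h => hcon (hinv g z hz h)
    rcases hN N hN1 hN2 with h | h
    · rw [h, Subgroup.mem_bot] at hN4
      exact hz hN4
    · rw [h] at hN3
      exact hN3 (Subgroup.mem_top x)
  have h2 := comm_of_app M hs.MA hs.A_comm h1
  intro x y
  obtain ⟨n, hn, hx⟩ := hs.HM x (Subgroup.mem_top x)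
  obtain ⟨m, hm, hy⟩ := hs.HM y (Subgroup.mem_top y)
  exact commute_of_pow hn (commute_of_pow hm (h2 _ hy _ hx)).symm

section main

variable (A M H : Subgroup G) [A.Normal] [M.Normal] [H.Normal] (hs : Setup A M H)
  (hN : ∀ N : Subgroup G, N.Normal → Cvx N → N = ⊥ ∨ N = H ∨ N = ⊤)

include hN in
theorem small_conj {a y : G} (ha : a ∈ H) (ha1 : a ≠ 1) (hy : y ≠ 1) :
    ∃ g : G, Le (g * a * g⁻¹) y := by
  by_contra hcon
  push Not at hcon
  let S : Set G := {s | ∃ g : G, s = g * a * g⁻¹}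
  have hS : (1 : G) ∉ S := by
    rintro ⟨g, h⟩
    exact conj_ne_one g ha1 h.symm
  have hc : ∀ s ∈ S, ∀ g : G, g * s * g⁻¹ ∈ S := by
    rintro s ⟨k, rfl⟩ g
    exact ⟨g * k, by group⟩
  have hyS : y ∈ below S hS := by
    rintro s ⟨g, rfl⟩
    exact hcon g
  have haS : a ∉ below S hS := fun h => h a ⟨1, by simp⟩ (Le.refl a)
  rcases hN _ (below_normal S hS hc) (below_cvx S hS) with h | h | h
  · rw [h, Subgroup.mem_bot] at hyS
    exact hy hyS
  · rw [h] at haS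
    exact haS ha
  · rw [h] at haS
    exact haS (Subgroup.mem_top a)

/-- the elements of `M` which are approximable everywhere -/
def ZM (hs : Setup A M H) : Subgroup G where
  carrier := {x | x ∈ M ∧ ∀ z : G, z ≠ 1 → App A x z}
  one_mem' := ⟨M.one_mem, fun z _ => ⟨1, 1, one_ne_zero, by simp, Le.one z⟩⟩
  mul_mem' := by
    rintro x y ⟨hx, hx'⟩ ⟨hy, hy'⟩
    exact ⟨M.mul_mem hx hy, fun z hz =>
      (hx' z hz).mul ((mk_comm_iff A x y).mpr (hs.MA x hx y hy)) (hy' z hz)⟩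
  inv_mem' := by
    rintro x ⟨hx, hx'⟩
    exact ⟨M.inv_mem hx, fun z hz => (hx' z hz).inv⟩

theorem app_conj_all {x : G} (h : ∀ z : G, z ≠ 1 → App A x z) (g : G) :
    ∀ z : G, z ≠ 1 → App A (g * x * g⁻¹) z := by
  intro z hz
  have e : z = g * (g⁻¹ * z * g) * g⁻¹ := by group
  rw [e, App.conj_iff]
  refine h _ ?_
  have := conj_ne_one g⁻¹ hz
  rwa [inv_inv] at this

instance zm_normal : (ZM A M H hs).Normal := by
  refine ⟨?_⟩
  rintro x ⟨hx, hx'⟩ g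
  exact ⟨Subgroup.Normal.conj_mem inferInstance x hx g, app_conj_all A hx' g⟩

include hN in
/-- `[M, H] ≤ ZM` -/
theorem comm_mem_ZM {h a : G} (hh : h ∈ M) (ha : a ∈ H) : ⁅h, a⁆ ∈ ZM A M H hs := by
  refine ⟨hs.GM h a, fun z hz => ?_⟩
  by_cases ha1 : a = 1
  · subst ha1
    rw [commutatorElement_one_right]
    exact ⟨1, 1, one_ne_zero, by simp, Le.one z⟩
  obtain ⟨y, hy1, hyz, hyz'⟩ : ∃ y : G, y ≠ 1 ∧ Le y z ∧ Le y (h⁻¹ * z * h) := by
    have hz' : h⁻¹ * z * h ≠ 1 := by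
      have := conj_ne_one h⁻¹ hz
      rwa [inv_inv] at this
    rcases Le.total z (h⁻¹ * z * h) with h1 | h1
    · exact ⟨z, hz, Le.refl z, h1⟩
    · exact ⟨_, hz', h1, Le.refl _⟩
  obtain ⟨g, hg⟩ := small_conj H hN ha ha1 hy1
  set a' : G := g * a * g⁻¹ with ha'
  have h1 : Le a' z := hg.trans hyz
  have h2 : Le (h * a' * h⁻¹) z := by
    have := (hg.trans hyz').conj h
    rwa [show h * (h⁻¹ * z * h) * h⁻¹ = z by group] at this
  refine ⟨⁅h, a'⁆, 1, one_ne_zero, ?_, ?_⟩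
  · rw [pow_one]
    set m : G := ⁅g, a⁆ with hm
    have hmM : m ∈ M := hs.GM g a
    have e1 : a' = m * a := by rw [ha', hm, commutatorElement_def]; group
    have c1 : (h : G ⧸ A) * m = m * h := (mk_comm_iff A h m).mpr (hs.MA h hh m hmM)
    have c2 : (m : G ⧸ A) * (⁅h, a⁆ : G) = (⁅h, a⁆ : G) * m :=
      (mk_comm_iff A m _).mpr (hs.MA m hmM _ (hs.GM h a))
    have e2 : ((⁅h, a'⁆ : G) : G ⧸ A) = (h : G ⧸ A) * m * a * (h : G ⧸ A)⁻¹ * (a : G ⧸ A)⁻¹ *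
        (m : G ⧸ A)⁻¹ := by
      rw [e1, commutatorElement_def]
      simp only [QuotientGroup.mk_mul, QuotientGroup.mk_inv, mul_inv_rev, mul_assoc]
    have e3 : ((⁅h, a⁆ : G) : G ⧸ A) = (h : G ⧸ A) * a * (h : G ⧸ A)⁻¹ * (a : G ⧸ A)⁻¹ := by
      rw [commutatorElement_def]
      simp only [QuotientGroup.mk_mul, QuotientGroup.mk_inv]
    rw [e2, c1]
    have e4 : (m : G ⧸ A) * h * a * (h : G ⧸ A)⁻¹ * (a : G ⧸ A)⁻¹ * (m : G ⧸ A)⁻¹ =
        m * (⁅h, a⁆ : G) * (m : G ⧸ A)⁻¹ := by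
      rw [e3]; simp only [mul_assoc]
    rw [e4, c2, mul_inv_cancel_right]
  · rw [commutatorElement_def]
    exact h2.mul h1.inv

include hN in
/-- `[H, H] ≤ ZM` -/
theorem comm_mem_ZM' {x y : G} (hx : x ∈ H) (hy : y ∈ H) : ⁅x, y⁆ ∈ ZM A M H hs := by
  obtain ⟨N, hN0, hxN⟩ := hs.HM x hx
  set u : G := ⁅x, y⁆ with hu
  have huM : u ∈ M := hs.GM x y
  have huH : u ∈ H := hs.MH huM
  let Z := ZM A M H hs
  have c1 : (u : G ⧸ Z) * x = x * u := (mk_comm_iff Z u x).mpr (comm_mem_ZM A M H hs hN huM hx)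
  have c2 : ((x ^ N : G) : G ⧸ Z) * y = y * (x ^ N : G) :=
    (mk_comm_iff Z (x ^ N) y).mpr (comm_mem_ZM A M H hs hN hxN hy)
  have c3 : (u : G ⧸ Z) * y = y * u := (mk_comm_iff Z u y).mpr (comm_mem_ZM A M H hs hN huM hy)
  -- `y⁻¹ x y = x (stuff)`: in the quotient `x y x⁻¹ = u y`
  have e1 : (x : G ⧸ Z) * y * (x : G ⧸ Z)⁻¹ = u * y := by
    rw [hu, commutatorElement_def]
    simp only [QuotientGroup.mk_mul, QuotientGroup.mk_inv]
    group
  have e2 : ∀ k : ℕ, (x : G ⧸ Z) ^ k * y * ((x : G ⧸ Z) ^ k)⁻¹ = (u : G ⧸ Z) ^ k * y := by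
    intro k
    induction k with
    | zero => simp
    | succ k ih =>
      have hc : (x : G ⧸ Z) * (u : G ⧸ Z) ^ k * (x : G ⧸ Z)⁻¹ = (u : G ⧸ Z) ^ k := by
        have h3 : Commute (x : G ⧸ Z) (u : G ⧸ Z) := c1.symm
        rw [(h3.pow_right k).eq, mul_inv_cancel_right]
      calc (x : G ⧸ Z) ^ (k + 1) * y * ((x : G ⧸ Z) ^ (k + 1))⁻¹
          = x * ((x : G ⧸ Z) ^ k * y * ((x : G ⧸ Z) ^ k)⁻¹) * (x : G ⧸ Z)⁻¹ := by
            rw [pow_succ']; group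
        _ = (x * (u : G ⧸ Z) ^ k * (x : G ⧸ Z)⁻¹) * (x * y * (x : G ⧸ Z)⁻¹) := by rw [ih]; group
        _ = (u : G ⧸ Z) ^ (k + 1) * y := by rw [hc, e1, pow_succ]; group
  have e3 : (u : G ⧸ Z) ^ N = 1 := by
    have h4 := e2 N
    rw [QuotientGroup.mk_pow] at c2
    rw [c2, mul_inv_cancel_right] at h4
    have h5 : (u : G ⧸ Z) ^ N * y = 1 * y := by rw [one_mul]; exact h4.symm
    exact mul_right_cancel h5
  have e4 : u ^ N ∈ Z := by
    rw [← QuotientGroup.eq_one_iff, QuotientGroup.mk_pow]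
    exact e3
  exact ⟨huM, fun z hz => (e4.2 z hz).of_pow hN0⟩

include hN hs in
/-- approximation of products in `H` -/
theorem app_mul {x y z : G} (hx : x ∈ H) (hy : y ∈ H) (hz : z ≠ 1) (h1 : App A x z)
    (h2 : App A y z) : App A (x * y) z := by
  obtain ⟨n, hn, hxn⟩ := hs.HM x hx
  obtain ⟨m, hm, hym⟩ := hs.HM y hy
  let Z := ZM A M H hs
  set N : ℕ := n * m with hNdef
  have hN0 : N ≠ 0 := mul_ne_zero hn hm
  have hxN : x ^ N ∈ M := by rw [hNdef, pow_mul]; exact M.pow_mem hxn m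
  have hyN : y ^ N ∈ M := by rw [hNdef, mul_comm, pow_mul]; exact M.pow_mem hym n
  have c : Commute (x : G ⧸ Z) (y : G ⧸ Z) :=
    (mk_comm_iff Z x y).mpr (comm_mem_ZM' A M H hs hN hx hy)
  set ζ : G := (x ^ N * y ^ N)⁻¹ * (x * y) ^ N with hζ
  have hζZ : ζ ∈ Z := by
    rw [← QuotientGroup.eq_one_iff, hζ]
    simp only [QuotientGroup.mk_mul, QuotientGroup.mk_inv, QuotientGroup.mk_pow]
    rw [c.mul_pow]
    simp
  have e : (x * y) ^ N = x ^ N * y ^ N * ζ := by rw [hζ]; group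
  refine App.of_pow hN0 ?_
  rw [e]
  have hxyM : x ^ N * y ^ N ∈ M := M.mul_mem hxN hyN
  refine App.mul ((mk_comm_iff A _ _).mpr (hs.MA _ hxyM _ hζZ.1)) ?_ (hζZ.2 z hz)
  exact App.mul ((mk_comm_iff A _ _).mpr (hs.MA _ hxN _ hyN)) h1.pow h2.pow

/-- the elements of `H` which are approximable everywhere -/
def ZH (hs : Setup A M H)
    (hN : ∀ N : Subgroup G, N.Normal → Cvx N → N = ⊥ ∨ N = H ∨ N = ⊤) : Subgroup G where
  carrier := {x | x ∈ H ∧ ∀ z : G, z ≠ 1 → App A x z}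
  one_mem' := ⟨H.one_mem, fun z _ => ⟨1, 1, one_ne_zero, by simp, Le.one z⟩⟩
  mul_mem' := by
    rintro x y ⟨hx, hx'⟩ ⟨hy, hy'⟩
    exact ⟨H.mul_mem hx hy, fun z hz => app_mul A M H hs hN hx hy hz (hx' z hz) (hy' z hz)⟩
  inv_mem' := by
    rintro x ⟨hx, hx'⟩
    exact ⟨H.inv_mem hx, fun z hz => (hx' z hz).inv⟩

instance zh_normal : (ZH A M H hs hN).Normal := by
  refine ⟨?_⟩
  rintro x ⟨hx, hx'⟩ g
  exact ⟨Subgroup.Normal.conj_mem inferInstance x hx g, app_conj_all A hx' g⟩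

theorem comm_mem_ZH {x y : G} (hx : x ∈ H) (hy : y ∈ H) : ⁅x, y⁆ ∈ ZH A M H hs hN :=
  ⟨hs.MH (hs.GM x y), (comm_mem_ZM' A M H hs hN hx hy).2⟩

include hs hN in
theorem sub_conj_H {x h : G} (hx : x ∈ H) (hh : h ∈ H) : Sub A (h * x * h⁻¹) x := by
  intro z hz h1
  have e : h * x * h⁻¹ = ⁅h, x⁆ * x := by rw [commutatorElement_def]; group
  rw [e]
  exact app_mul A M H hs hN (hs.MH (hs.GM h x)) hx hz ((comm_mem_ZH A M H hs hN hh hx).2 z hz) h1

include hs hN in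
theorem sub_conj_H' {x h : G} (hx : x ∈ H) (hh : h ∈ H) : Sub A x (h * x * h⁻¹) := by
  have h1 := sub_conj_H A M H hs hN (Subgroup.Normal.conj_mem inferInstance x hx h)
    (H.inv_mem hh)
  rwa [show h⁻¹ * (h * x * h⁻¹) * h⁻¹⁻¹ = x by group] at h1

/-- the stabiliser of a cut -/
def stab (x : G) : Subgroup G where
  carrier := {g | Sub A x (g * x * g⁻¹) ∧ Sub A (g * x * g⁻¹) x}
  one_mem' := by simpa using Sub.refl x
  mul_mem' := by
    rintro g k ⟨hg, hg'⟩ ⟨hk, hk'⟩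
    have e : g * k * x * (g * k)⁻¹ = g * (k * x * k⁻¹) * g⁻¹ := by group
    refine ⟨?_, ?_⟩
    · rw [e]
      exact hg.trans (hk.conj g)
    · rw [e]
      exact (hk'.conj g).trans hg'
  inv_mem' := by
    rintro g ⟨hg, hg'⟩
    have e : g⁻¹ * (g * x * g⁻¹) * g⁻¹⁻¹ = x := by group
    refine ⟨?_, ?_⟩
    · have := hg'.conj g⁻¹
      rwa [e] at this
    · have := hg.conj g⁻¹
      rwa [e] at this

include hs hN in
/-- freeness: an element outside `H` moves all the proper cuts -/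
theorem free (hrank : ∀ g : G, g ∉ H → ∀ g' : G, ∃ (m : ℕ) (k : ℤ), m ≠ 0 ∧ g' ^ m * (g ^ k)⁻¹ ∈ H)
    {x : G} (hx : x ∈ H) (hxZ : x ∉ ZH A M H hs hN) {g : G} (hg : g ∈ stab A x) : g ∈ H := by
  by_contra hgH
  have hHs : ∀ h ∈ H, h ∈ stab A x := fun h hh =>
    ⟨sub_conj_H' A M H hs hN hx hh, sub_conj_H A M H hs hN hx hh⟩
  have hall : ∀ g' : G, g' ∈ stab A x := by
    intro g'
    obtain ⟨m, k, hm, hmk⟩ := hrank g hgH g'
    have h1 : g' ^ m ∈ stab A x := by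
      have := (stab A x).mul_mem (hHs _ hmk) ((stab A x).zpow_mem hg k)
      rwa [inv_mul_cancel_right] at this
    exact sub_of_pow hm h1.1 h1.2
  obtain ⟨z₀, hz₀, hno⟩ : ∃ z : G, z ≠ 1 ∧ ¬ App A x z := by
    by_contra hcon
    push Not at hcon
    exact hxZ ⟨hx, hcon⟩
  obtain ⟨N, hN1, hN2, hN3, hN4⟩ := exists_cvx A x z₀ fun g' h => hno ((hall g').1 z₀ hz₀ h)
  rcases hN N hN1 hN2 with h | h | h
  · rw [h, Subgroup.mem_bot] at hN4
    exact hz₀ hN4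
  · rw [h] at hN3
    exact hN3 hx
  · rw [h] at hN3
    exact hN3 (Subgroup.mem_top x)

end main

end Pool.Agent.R804.OrdSol
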