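import Pool.Agent.R804.OrdSol.Core

/-! Positivity and the cone modulo the approximable elements. -/

set_option autoImplicit false
set_option linter.unusedSectionVars false

open scoped commutatorElement

namespace Pool.Agent.R804.OrdSol

universe u

variable {G : Type u} [Group G] [LinearOrder G] [MulLeftMono G] [MulRightMono G]

section main

variable (A M H : Subgroup G) [A.Normal] [M.Normal] [H.Normal] (hs : Setup A M H)
  (hN : ∀ N : Subgroup G, N.Normal → Cvx N → N = ⊥ ∨ N = H ∨ N = ⊤)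
  (hrank : ∀ g : G, g ∉ H → ∀ g' : G, ∃ (m : ℕ) (k : ℤ), m ≠ 0 ∧ g' ^ m * (g ^ k)⁻¹ ∈ H)

include hs hN hrank in
/-- A product of conjugates of `x` is dominated by a power of one of them. -/
theorem dominated {x : G} (hx : x ∈ H) (hxZ : x ∉ ZH A M H hs hN) (l : List G) (hl : l ≠ []) :
    ∃ (g : G) (n : ℕ) (w' z : G), n ≠ 0 ∧ w' ∈ H ∧ z ≠ 1 ∧
      ((op l x : G) : G ⧸ ZH A M H hs hN) = ((g * x ^ n * g⁻¹ : G) : G ⧸ ZH A M H hs hN) * w' ∧
      App A w' z ∧ ¬ App A (g * x * g⁻¹) z := by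
  have hHn : ∀ y ∈ H, ∀ g : G, g * y * g⁻¹ ∈ H := fun y hy g =>
    Subgroup.Normal.conj_mem inferInstance y hy g
  have hcomm : ∀ a ∈ H, ∀ b ∈ H, (a : G ⧸ ZH A M H hs hN) * b = b * a := fun a ha b hb =>
    (mk_comm_iff _ a b).mpr (comm_mem_ZH A M H hs hN ha hb)
  induction l with
  | nil => exact absurd rfl hl
  | cons g' l ih =>
    by_cases hl' : l = []
    · subst hl'
      obtain ⟨z₀, hz₀, hno⟩ : ∃ z : G, z ≠ 1 ∧ ¬ App A x z := by
        by_contra hcon
        push Not at hcon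
        exact hxZ ⟨hx, hcon⟩
      refine ⟨g', 1, 1, g' * z₀ * g'⁻¹, one_ne_zero, H.one_mem, conj_ne_one g' hz₀, ?_, ?_, ?_⟩
      · rw [op_cons, op_nil]; simp
      · exact ⟨1, 1, one_ne_zero, by simp, Le.one _⟩
      · rw [App.conj_iff]; exact hno
    obtain ⟨g, n, w', z, hn, hw', hz, hmk, hap, hnap⟩ := ih hl'
    set y : G := g' * x * g'⁻¹ with hy
    have hyH : y ∈ H := hHn x hx g'
    have hpH : g * x ^ n * g⁻¹ ∈ H := hHn _ (H.pow_mem hx n) g
    have hop : ((op (g' :: l) x : G) : G ⧸ ZH A M H hs hN) =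
        (y : G ⧸ ZH A M H hs hN) * (((g * x ^ n * g⁻¹ : G) : G ⧸ ZH A M H hs hN) * w') := by
      rw [op_cons, QuotientGroup.mk_mul, hmk]
    by_cases hyz : App A y z
    · refine ⟨g, n, y * w', z, hn, H.mul_mem hyH hw', hz, ?_,
        app_mul A M H hs hN hyH hw' hz hyz hap, hnap⟩
      rw [hop, ← mul_assoc, hcomm y hyH _ hpH, mul_assoc, QuotientGroup.mk_mul _ y w']
    by_cases h1 : Sub A y (g * x * g⁻¹)
    · by_cases h2 : Sub A (g * x * g⁻¹) y
      · -- the same coset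
        have h3 : g⁻¹ * g' ∈ stab A x := by
          refine ⟨?_, ?_⟩
          · have := h2.conj g⁻¹
            rwa [hy, show g⁻¹ * (g * x * g⁻¹) * g⁻¹⁻¹ = x by group,
              show g⁻¹ * (g' * x * g'⁻¹) * g⁻¹⁻¹ = g⁻¹ * g' * x * (g⁻¹ * g')⁻¹ by group] at this
          · have := h1.conj g⁻¹
            rwa [hy, show g⁻¹ * (g * x * g⁻¹) * g⁻¹⁻¹ = x by group,
              show g⁻¹ * (g' * x * g'⁻¹) * g⁻¹⁻¹ = g⁻¹ * g' * x * (g⁻¹ * g')⁻¹ by group] at this
        have h4 : g⁻¹ * g' ∈ H := free A M H hs hN hrank hx hxZ h3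
        set h : G := g⁻¹ * g' with hh
        have h5 : (y : G ⧸ ZH A M H hs hN) = ((g * x * g⁻¹ : G) : G ⧸ ZH A M H hs hN) := by
          have e1 : y = g * (h * x * h⁻¹) * g⁻¹ := by rw [hy, hh]; group
          have e2 : ((h * x * h⁻¹ : G) : G ⧸ ZH A M H hs hN) = x := by
            rw [QuotientGroup.mk_mul, QuotientGroup.mk_mul, hcomm h h4 x hx,
              QuotientGroup.mk_inv, mul_inv_cancel_right]
          rw [e1, QuotientGroup.mk_mul, QuotientGroup.mk_mul, e2, QuotientGroup.mk_mul,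
            QuotientGroup.mk_mul]
        refine ⟨g, n + 1, w', z, Nat.succ_ne_zero n, hw', hz, ?_, hap, hnap⟩
        rw [hop, h5, ← mul_assoc, ← QuotientGroup.mk_mul]
        congr 2
        rw [pow_succ']; group
      · -- the cut of `y` is strictly below
        simp only [Sub, not_forall] at h2
        obtain ⟨z', hz', h3, h4⟩ := h2
        have h5 : Le z z' := by
          rcases Le.total z z' with h | h
          · exact h
          · exact absurd (h3.mono h) hyz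
        refine ⟨g, n, y * w', z', hn, H.mul_mem hyH hw', hz', ?_,
          app_mul A M H hs hN hyH hw' hz' h3 (hap.mono h5), h4⟩
        rw [hop, ← mul_assoc, hcomm y hyH _ hpH, mul_assoc, QuotientGroup.mk_mul _ y w']
    · -- the cut of `y` is strictly above
      simp only [Sub, not_forall] at h1
      obtain ⟨z', hz', h3, h4⟩ := h1
      have h5 : Le z z' := by
        rcases Le.total z z' with h | h
        · exact h
        · exact absurd (h3.mono h) hnap
      refine ⟨g', 1, g * x ^ n * g⁻¹ * w', z', one_ne_zero, H.mul_mem hpH hw', hz', ?_, ?_, h4⟩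
      · rw [hop, pow_one, QuotientGroup.mk_mul _ (g * x ^ n * g⁻¹)]
      · refine app_mul A M H hs hN hpH hw' hz' ?_ (hap.mono h5)
        rw [← conj_pow]
        exact h3.pow

include hs hN hrank in
theorem op_not_mem {x : G} (hx : x ∈ H) (hxZ : x ∉ ZH A M H hs hN) (l : List G) (hl : l ≠ []) :
    op l x ∉ ZH A M H hs hN := by
  intro hmem
  obtain ⟨g, n, w', z, hn, hw', hz, hmk, hap, hnap⟩ := dominated A M H hs hN hrank hx hxZ l hl
  apply hnap
  rw [(QuotientGroup.eq_one_iff _).mpr hmem] at hmk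
  set p : G := g * x ^ n * g⁻¹ with hp
  have hpH : p ∈ H := Subgroup.Normal.conj_mem inferInstance _ (H.pow_mem hx n) g
  have h1 : p * w' ∈ ZH A M H hs hN := by
    rw [← QuotientGroup.eq_one_iff, QuotientGroup.mk_mul]
    exact hmk.symm
  have h2 : App A (p * w' * w'⁻¹) z :=
    app_mul A M H hs hN (H.mul_mem hpH hw') (H.inv_mem hw') hz (h1.2 z hz) hap.inv
  rw [mul_inv_cancel_right, hp, ← conj_pow] at h2
  exact h2.of_pow hn

include hs hN hrank in
/-- the cone on `H` modulo the approximable elements -/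
theorem exists_cone_ZH : ∃ P : Set G, P ⊆ H ∧ (∀ a ∈ P, ∀ b ∈ P, a * b ∈ P) ∧
    (∀ a ∈ P, ∀ g : G, g * a * g⁻¹ ∈ P) ∧
    (∀ a ∈ H, a ∈ ZH A M H hs hN ∨ a ∈ P ∨ a⁻¹ ∈ P) ∧ ∀ a ∈ P, a ∉ ZH A M H hs hN := by
  let Z := ZH A M H hs hN
  have hZH : Z ≤ H := fun x hx => hx.1
  let B : Subgroup (G ⧸ Z) := H.map (QuotientGroup.mk' Z)
  have : B.Normal := Subgroup.Normal.map inferInstance _ (QuotientGroup.mk'_surjective Z)
  have hcomm : ∀ a ∈ H, ∀ b ∈ H, (a : G ⧸ Z) * b = b * a := fun a ha b hb =>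
    (mk_comm_iff _ a b).mpr (comm_mem_ZH A M H hs hN ha hb)
  have hB : ∀ a ∈ B, ∀ b ∈ B, a * b = b * a := by
    rintro _ ⟨a, ha, rfl⟩ _ ⟨b, hb, rfl⟩
    exact hcomm a ha b hb
  have hQ : ∀ g h : G ⧸ Z, ∀ b ∈ B, g * (h * b * h⁻¹) * g⁻¹ = h * (g * b * g⁻¹) * h⁻¹ := by
    intro g h b hb
    induction g using QuotientGroup.induction_on with | _ g => ?_
    induction h using QuotientGroup.induction_on with | _ h => ?_
    have h1 : ((⁅g, h⁆ : G) : G ⧸ Z) ∈ B := ⟨⁅g, h⁆, hs.MH (hs.GM g h), rfl⟩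
    have h2 : (g : G ⧸ Z) * h = (⁅g, h⁆ : G) * (h * g) := by
      rw [← QuotientGroup.mk_mul, ← QuotientGroup.mk_mul, ← QuotientGroup.mk_mul]
      congr 1
      rw [commutatorElement_def]; group
    have h3 := hB _ h1 _ (Subgroup.Normal.conj_mem inferInstance b hb ((h : G ⧸ Z) * g))
    calc (g : G ⧸ Z) * (h * b * (h : G ⧸ Z)⁻¹) * (g : G ⧸ Z)⁻¹
        = (g * h) * b * ((g : G ⧸ Z) * h)⁻¹ := by group
      _ = (⁅g, h⁆ : G) * ((h * g) * b * ((h : G ⧸ Z) * g)⁻¹) * ((⁅g, h⁆ : G) : G ⧸ Z)⁻¹ := by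
          rw [h2]; group
      _ = (h * g) * b * ((h : G ⧸ Z) * g)⁻¹ := by rw [h3, mul_inv_cancel_right]
      _ = _ := by group
  have hopmk : ∀ (l : List G) (x : G),
      ((op l x : G) : G ⧸ Z) = op (l.map (fun g : G => (QuotientGroup.mk g : G ⧸ Z))) (x : G ⧸ Z) := by
    intro l x
    induction l with
    | nil => simp
    | cons g l ih =>
      rw [op_cons, List.map_cons, op_cons, ← ih]
      simp only [QuotientGroup.mk_mul, QuotientGroup.mk_inv]
  obtain ⟨P, hPB, hP1, hPm, hPc, hPt⟩ := exists_cone B hB hQ (by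
    rintro _ ⟨x, hx, rfl⟩ hx1 l hl h
    have hxZ : x ∉ Z := fun hh => hx1 ((QuotientGroup.eq_one_iff x).mpr hh)
    have h1 := op_not_mem A M H hs hN hrank hx hxZ (l.map Quotient.out) (by simpa using hl)
    apply h1
    rw [← QuotientGroup.eq_one_iff, hopmk, List.map_map]
    have h2 : l.map ((fun g : G => (QuotientGroup.mk g : G ⧸ Z)) ∘ Quotient.out) = l := by
      conv_rhs => rw [← List.map_id l]
      refine List.map_congr_left fun q _ => ?_
      exact QuotientGroup.out_eq' q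
    rw [h2]
    exact h)
  refine ⟨(QuotientGroup.mk' Z) ⁻¹' P, ?_, ?_, ?_, ?_, ?_⟩
  · intro x hx
    obtain ⟨h, hh, he⟩ := hPB hx
    have h1 : h⁻¹ * x ∈ Z := QuotientGroup.eq.mp he
    have := H.mul_mem hh (hZH h1)
    rwa [mul_inv_cancel_left] at this
  · intro a ha b hb
    show (QuotientGroup.mk' Z) (a * b) ∈ P
    rw [map_mul]; exact hPm _ ha _ hb
  · intro a ha g
    show (QuotientGroup.mk' Z) (g * a * g⁻¹) ∈ P
    rw [map_mul, map_mul, map_inv]; exact hPc _ _ ha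
  · intro a ha
    by_cases haZ : a ∈ Z
    · exact Or.inl haZ
    · right
      have h2 : (QuotientGroup.mk' Z) a ≠ 1 := fun h => haZ ((QuotientGroup.eq_one_iff _).mp h)
      rcases hPt _ ⟨a, ha, rfl⟩ h2 with h | h
      · exact Or.inl h
      · right
        show (QuotientGroup.mk' Z) a⁻¹ ∈ P
        rw [map_inv]; exact h
  · intro a ha haZ
    have h2 : (QuotientGroup.mk' Z) a = 1 := (QuotientGroup.eq_one_iff _).mpr haZ
    have ha' : (QuotientGroup.mk' Z) a ∈ P := ha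
    rw [h2] at ha'
    exact hP1 ha'

end main

end Pool.Agent.R804.OrdSol
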