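import Mathlib

/-! Archimedean comparison in a bi-ordered (not necessarily commutative) group. -/

set_option autoImplicit false
set_option linter.unusedSectionVars false

open scoped commutatorElement

namespace Pool.Agent.R804.OrdSol

universe u

variable {G : Type u} [Group G] [LinearOrder G] [MulLeftMono G] [MulRightMono G]

/-- `x` lies between two powers of `y` -/
def Le (x y : G) : Prop := ∃ n : ℤ, (y ^ n)⁻¹ ≤ x ∧ x ≤ y ^ n

theorem Le.refl (x : G) : Le x x := by
  rcases le_total 1 x with h | h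
  · exact ⟨1, by simpa using (inv_le_one'.mpr h).trans h, by simp⟩
  · exact ⟨-1, by simp, by simpa using h.trans (one_le_inv'.mpr h)⟩

theorem one_le_of_inv_le {z : G} (h : z⁻¹ ≤ z) : 1 ≤ z := by
  by_contra hcon
  push Not at hcon
  exact absurd (h.trans_lt hcon) (not_lt.mpr (one_lt_inv'.mpr hcon).le)

theorem Le.one (y : G) : Le 1 y := ⟨0, by simp, by simp⟩

theorem Le.mul {x x' y : G} (h : Le x y) (h' : Le x' y) : Le (x * x') y := by
  obtain ⟨n, h1, h2⟩ := h
  obtain ⟨m, h3, h4⟩ := h'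
  refine ⟨m + n, ?_, ?_⟩
  · rw [zpow_add, mul_inv_rev]
    exact mul_le_mul' h1 h3
  · rw [add_comm, zpow_add]
    exact mul_le_mul' h2 h4

theorem Le.inv {x y : G} (h : Le x y) : Le x⁻¹ y := by
  obtain ⟨n, h1, h2⟩ := h
  refine ⟨n, inv_le_inv_iff.mpr h2, ?_⟩
  have := inv_le_inv_iff.mpr h1
  simpa using this

theorem Le.inv_right {x y : G} (h : Le x y) : Le x y⁻¹ := by
  obtain ⟨n, h1, h2⟩ := h
  exact ⟨-n, by simpa using h1, by simpa using h2⟩

theorem Le.pow {x y : G} (h : Le x y) (n : ℕ) : Le (x ^ n) y := by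
  induction n with
  | zero => simpa using Le.one y
  | succ n ih => rw [pow_succ]; exact ih.mul h

/-- convexity -/
theorem Le.between {a b x z : G} (ha : Le a z) (hb : Le b z) (h1 : a ≤ x) (h2 : x ≤ b) :
    Le x z := by
  obtain ⟨n, h3, h4⟩ := ha
  obtain ⟨m, h5, h6⟩ := hb
  have hn : 1 ≤ z ^ n := one_le_of_inv_le (h3.trans h4)
  have hm : 1 ≤ z ^ m := one_le_of_inv_le (h5.trans h6)
  refine ⟨n + m, ?_, ?_⟩
  · refine le_trans ?_ (h3.trans h1)
    rw [zpow_add, mul_inv_rev]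
    exact mul_le_of_le_one_left' (inv_le_one'.mpr hm)
  · refine (h2.trans h6).trans ?_
    rw [zpow_add]
    exact le_mul_of_one_le_left' hn

theorem Le.zpow {x y : G} (h : Le x y) (n : ℤ) : Le (x ^ n) y := by
  cases n with
  | ofNat n => simpa using h.pow n
  | negSucc n => rw [zpow_negSucc]; exact (h.pow _).inv

theorem Le.trans {x y z : G} (h : Le x y) (h' : Le y z) : Le x z := by
  obtain ⟨n, h1, h2⟩ := h
  exact Le.between (h'.zpow n).inv (h'.zpow n) h1 h2

theorem Le.total (x y : G) : Le x y ∨ Le y x := by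
  have key : ∀ a b : G, 1 ≤ a → 1 ≤ b → Le a b ∨ Le b a := by
    intro a b ha hb
    rcases le_total a b with h | h
    · exact Or.inl (Le.between (Le.one b) (Le.refl b) ha h)
    · exact Or.inr (Le.between (Le.one a) (Le.refl a) hb h)
  rcases le_total 1 x with hx | hx <;> rcases le_total 1 y with hy | hy
  · exact key x y hx hy
  · rcases key x y⁻¹ hx (one_le_inv'.mpr hy) with h | h
    · left; simpa using h.inv_right
    · right; simpa using h.inv
  · rcases key x⁻¹ y (one_le_inv'.mpr hx) hy with h | h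
    · left; simpa using h.inv
    · right; simpa using h.inv_right
  · rcases key x⁻¹ y⁻¹ (one_le_inv'.mpr hx) (one_le_inv'.mpr hy) with h | h
    · left; simpa using h.inv.inv_right
    · right; simpa using h.inv.inv_right

theorem conj_le_conj {a b : G} (g : G) (h : a ≤ b) : g * a * g⁻¹ ≤ g * b * g⁻¹ :=
  mul_le_mul_left (mul_le_mul_right h g) g⁻¹

theorem conj_lt_conj {a b : G} (g : G) (h : a < b) : g * a * g⁻¹ < g * b * g⁻¹ :=
  mul_lt_mul_left (mul_lt_mul_right h g) g⁻¹

theorem Le.conj {x y : G} (h : Le x y) (g : G) : Le (g * x * g⁻¹) (g * y * g⁻¹) := by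
  obtain ⟨n, h1, h2⟩ := h
  refine ⟨n, ?_, ?_⟩
  · rw [conj_zpow]
    have := conj_le_conj g h1
    rwa [show g * (y ^ n)⁻¹ * g⁻¹ = (g * y ^ n * g⁻¹)⁻¹ by group] at this
  · rw [conj_zpow]
    exact conj_le_conj g h2

theorem Le.conj_iff {x y : G} (g : G) : Le (g * x * g⁻¹) (g * y * g⁻¹) ↔ Le x y := by
  refine ⟨fun h => ?_, fun h => h.conj g⟩
  have := h.conj g⁻¹
  simpa [mul_assoc] using this

theorem Le.eq_one {x : G} (h : Le x 1) : x = 1 := by
  obtain ⟨n, h1, h2⟩ := h
  rw [one_zpow] at h1 h2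
  rw [inv_one] at h1
  exact le_antisymm h2 h1

theorem pow_lt_one_of_lt {x : G} (h : x < 1) {n : ℕ} (hn : n ≠ 0) : x ^ n < 1 := by
  have := pow_lt_pow_left' hn h
  simpa using this

theorem Le.self_pow (x : G) {n : ℕ} (hn : n ≠ 0) : Le x (x ^ n) := by
  rcases le_total 1 x with h | h
  · refine Le.between (Le.one _) (Le.refl (x ^ n)) h ?_
    obtain ⟨m, rfl⟩ := Nat.exists_eq_succ_of_ne_zero hn
    rw [pow_succ]
    exact le_mul_of_one_le_left' (one_le_pow_of_one_le' h m)
  · refine Le.between (Le.refl (x ^ n)) (Le.one _) ?_ h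
    obtain ⟨m, rfl⟩ := Nat.exists_eq_succ_of_ne_zero hn
    rw [pow_succ]
    exact mul_le_of_le_one_left' (pow_le_one' h m)

/-- roots commute -/
theorem commute_of_pow {x y : G} {n : ℕ} (hn : n ≠ 0) (h : Commute (x ^ n) y) : Commute x y := by
  have h1 : y * x ^ n * y⁻¹ = x ^ n := by
    rw [← h.eq, mul_inv_cancel_right]
  have h2 : (y * x * y⁻¹) ^ n = x ^ n := by rw [conj_pow, h1]
  have h3 : y * x * y⁻¹ = x := by
    rcases lt_trichotomy (y * x * y⁻¹) x with h | h | h
    · exact absurd h2 (pow_lt_pow_left' hn h).ne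
    · exact h
    · exact absurd h2 (pow_lt_pow_left' hn h).ne'
  have h4 : y * x = x * y := by
    rw [← mul_inv_eq_iff_eq_mul]; exact h3
  exact h4.symm

theorem eq_one_of_pow {x : G} {n : ℕ} (hn : n ≠ 0) (h : x ^ n = 1) : x = 1 := by
  rcases lt_trichotomy x 1 with h1 | h1 | h1
  · exact absurd h (pow_lt_one_of_lt h1 hn).ne
  · exact h1
  · exact absurd h (one_lt_pow' h1 hn).ne'

/-- If `y g y⁻¹ = c g` and `c` commutes with `y`, then `c` is infinitesimal relative to `g`. -/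
theorem not_le_of_comm {g y c : G} (hg : g ≠ 1) (hc : y * g * y⁻¹ = c * g) (hcy : Commute c y) :
    ¬ Le g c := by
  have hpow : ∀ n : ℕ, y ^ n * g * (y ^ n)⁻¹ = c ^ n * g := by
    intro n
    induction n with
    | zero => simp
    | succ n ih =>
      have h1 : y * c ^ n * y⁻¹ = c ^ n := by
        rw [← (hcy.pow_left n).eq, mul_inv_cancel_right]
      calc y ^ (n + 1) * g * (y ^ (n + 1))⁻¹ = y * (y ^ n * g * (y ^ n)⁻¹) * y⁻¹ := by
            rw [pow_succ']; group
        _ = (y * c ^ n * y⁻¹) * (y * g * y⁻¹) := by rw [ih]; group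
        _ = c ^ (n + 1) * g := by rw [h1, hc, pow_succ]; group
  have hpow' : ∀ n : ℕ, (y ^ n)⁻¹ * g * y ^ n = (c ^ n)⁻¹ * g := by
    intro n
    have h1 : (y ^ n)⁻¹ * c ^ n * y ^ n = c ^ n := by
      rw [mul_assoc, (hcy.pow_pow n n).eq, inv_mul_cancel_left]
    have h2 := hpow n
    have h3 : (y ^ n)⁻¹ * (c ^ n * g) * y ^ n = g := by rw [← h2]; group
    have h4 : (y ^ n)⁻¹ * (c ^ n * g) * y ^ n =
        ((y ^ n)⁻¹ * c ^ n * y ^ n) * ((y ^ n)⁻¹ * g * y ^ n) := by group
    rw [h4, h1] at h3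
    rw [eq_inv_mul_iff_mul_eq]
    exact h3
  have hz : ∀ n : ℤ, ∃ w : G, w * g * w⁻¹ = c ^ n * g := by
    intro n
    cases n with
    | ofNat n => exact ⟨y ^ n, by simpa using hpow n⟩
    | negSucc n =>
      refine ⟨(y ^ (n + 1))⁻¹, ?_⟩
      rw [inv_inv, hpow' (n + 1), zpow_negSucc]
  rintro ⟨n, h1, h2⟩
  rcases lt_or_gt_of_ne hg with h | h
  · obtain ⟨w, hw⟩ := hz n
    have h3 := conj_lt_conj w h
    rw [hw, mul_one, mul_inv_cancel] at h3
    have h4 : g < (c ^ n)⁻¹ := by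
      rw [lt_inv_iff_mul_lt_one']
      exact h3
    exact absurd h1 (not_le.mpr h4)
  · obtain ⟨w, hw⟩ := hz (-n)
    have h3 := conj_lt_conj w h
    rw [hw, mul_one, mul_inv_cancel] at h3
    have h4 : c ^ n < g := by
      rw [zpow_neg] at h3
      have := mul_lt_mul_right h3 (c ^ n)
      simpa using this
    exact absurd h2 (not_le.mpr h4)

/-- convex subgroups -/
def Cvx (C : Subgroup G) : Prop := ∀ a ∈ C, ∀ b ∈ C, ∀ x, a ≤ x → x ≤ b → x ∈ C

/-- the elements which are infinitesimal relative to all the elements of `S` -/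
def below (S : Set G) (hS : (1 : G) ∉ S) : Subgroup G where
  carrier := {x | ∀ s ∈ S, ¬ Le s x}
  one_mem' := fun s hs h => hS (h.eq_one ▸ hs)
  mul_mem' := by
    intro x y hx hy s hs h
    rcases Le.total x y with h1 | h1
    · exact hy s hs (h.trans (h1.mul (Le.refl y)))
    · exact hx s hs (h.trans ((Le.refl x).mul h1))
  inv_mem' := by
    intro x hx s hs h
    exact hx s hs (by simpa using h.inv_right)

theorem mem_below {S : Set G} {hS : (1 : G) ∉ S} {x : G} :
    x ∈ below S hS ↔ ∀ s ∈ S, ¬ Le s x := Iff.rfl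

theorem below_cvx (S : Set G) (hS : (1 : G) ∉ S) : Cvx (below S hS) := by
  intro a ha b hb x h1 h2 s hs h
  rcases Le.total a b with h3 | h3
  · exact hb s hs (h.trans (Le.between h3 (Le.refl b) h1 h2))
  · exact ha s hs (h.trans (Le.between (Le.refl a) h3 h1 h2))

theorem below_normal (S : Set G) (hS : (1 : G) ∉ S) (hc : ∀ s ∈ S, ∀ g : G, g * s * g⁻¹ ∈ S) :
    (below S hS).Normal := by
  refine ⟨fun x hx g s hs h => ?_⟩
  have h1 := h.conj g⁻¹
  refine hx _ (hc s hs g⁻¹) ?_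
  rwa [show g⁻¹ * (g * x * g⁻¹) * g⁻¹⁻¹ = x by group] at h1

end Pool.Agent.R804.OrdSol
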