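import Mathlib

/-! A group acting by conjugation on an abelian normal subgroup `B` (the conjugations commute on
`B`): if no element of `B` other than `1` is killed by a product of conjugations, then `B` has an
invariant total cone. -/

set_option autoImplicit false

namespace Pool.Agent.R804.OrdSol

universe u

variable {Q : Type u} [Group Q]

/-- the product of the conjugates of `b` by the elements of the list `l` -/
def op (l : List Q) (b : Q) : Q := (l.map (fun g => g * b * g⁻¹)).prod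

@[simp] theorem op_nil (b : Q) : op [] b = 1 := rfl

theorem op_cons (g : Q) (l : List Q) (b : Q) : op (g :: l) b = g * b * g⁻¹ * op l b := by
  simp [op]

theorem op_one (l : List Q) : op l (1 : Q) = 1 := by
  induction l with
  | nil => simp
  | cons g l ih => rw [op_cons]; simp [ih]

theorem op_append (l l' : List Q) (b : Q) : op (l ++ l') b = op l b * op l' b := by
  simp [op]

theorem op_mem (B : Subgroup Q) [B.Normal] (l : List Q) {b : Q} (hb : b ∈ B) : op l b ∈ B := by
  induction l with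
  | nil => exact B.one_mem
  | cons g l ih =>
    rw [op_cons]
    exact B.mul_mem (Subgroup.Normal.conj_mem inferInstance b hb g) ih

theorem op_conj (l : List Q) (b g : Q) : g * op l b * g⁻¹ = op (l.map (fun h => g * h)) b := by
  induction l with
  | nil => simp
  | cons h l ih =>
    rw [List.map_cons, op_cons, op_cons, ← ih]
    group

section comm

variable (B : Subgroup Q) [B.Normal] (hB : ∀ a ∈ B, ∀ b ∈ B, a * b = b * a)
  (hQ : ∀ g h : Q, ∀ b ∈ B, g * (h * b * h⁻¹) * g⁻¹ = h * (g * b * g⁻¹) * h⁻¹)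

include hB in
theorem op_mul (l : List Q) {a b : Q} (ha : a ∈ B) (hb : b ∈ B) :
    op l (a * b) = op l a * op l b := by
  induction l with
  | nil => simp
  | cons g l ih =>
    rw [op_cons, op_cons, op_cons, ih]
    have h1 := hB _ (op_mem B l ha) _ (Subgroup.Normal.conj_mem inferInstance b hb g)
    calc g * (a * b) * g⁻¹ * (op l a * op l b)
        = g * a * g⁻¹ * (g * b * g⁻¹ * op l a) * op l b := by group
      _ = g * a * g⁻¹ * (op l a * (g * b * g⁻¹)) * op l b := by rw [h1]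
      _ = _ := by group

include hB in
theorem op_inv (l : List Q) {a : Q} (ha : a ∈ B) : op l a⁻¹ = (op l a)⁻¹ := by
  have h1 := op_mul B hB l (B.inv_mem ha) ha
  rw [inv_mul_cancel, op_one] at h1
  exact eq_inv_of_mul_eq_one_left h1.symm

omit [B.Normal] in
include hQ in
theorem conj_op (l : List Q) (g : Q) {b : Q} (hb : b ∈ B) :
    g * op l b * g⁻¹ = op l (g * b * g⁻¹) := by
  induction l with
  | nil => simp
  | cons h l ih =>
    rw [op_cons, op_cons, ← ih, ← hQ g h b hb]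
    group

include hB hQ in
theorem op_op (l l' : List Q) {b : Q} (hb : b ∈ B) : op l (op l' b) = op l' (op l b) := by
  induction l with
  | nil =>
    rw [op_nil, op_nil]
    induction l' with
    | nil => simp
    | cons g l ih => rw [op_cons]; simpa using ih
  | cons g l ih =>
    rw [op_cons, op_cons, ih, conj_op B hQ l' g hb]
    rw [op_mul B hB l' (Subgroup.Normal.conj_mem inferInstance b hb g) (op_mem B l hb)]

include hB hQ in
/-- the existence of an invariant total cone -/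
theorem exists_cone (hop : ∀ b ∈ B, b ≠ 1 → ∀ l : List Q, l ≠ [] → op l b ≠ 1) :
    ∃ P : Set Q, P ⊆ B ∧ (1 : Q) ∉ P ∧ (∀ a ∈ P, ∀ b ∈ P, a * b ∈ P) ∧
      (∀ g : Q, ∀ a ∈ P, g * a * g⁻¹ ∈ P) ∧ ∀ b ∈ B, b ≠ 1 → b ∈ P ∨ b⁻¹ ∈ P := by
  let F : Set (Set Q) := {P | P ⊆ B ∧ (1 : Q) ∉ P ∧ (∀ a ∈ P, ∀ b ∈ P, a * b ∈ P) ∧
      (∀ g : Q, ∀ a ∈ P, g * a * g⁻¹ ∈ P)}
  obtain ⟨C, hC⟩ := zorn_subset F (by
    intro c hc hchain
    refine ⟨⋃₀ c, ⟨?_, ?_, ?_, ?_⟩, fun s hs => Set.subset_sUnion_of_mem hs⟩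
    · exact Set.sUnion_subset fun s hs => (hc hs).1
    · rintro ⟨s, hs, h1⟩
      exact (hc hs).2.1 h1
    · rintro a ⟨s, hs, ha⟩ b ⟨t, ht, hb⟩
      rcases hchain.total hs ht with h | h
      · exact ⟨t, ht, (hc ht).2.2.1 a (h ha) b hb⟩
      · exact ⟨s, hs, (hc hs).2.2.1 a ha b (h hb)⟩
    · rintro g a ⟨s, hs, ha⟩
      exact ⟨s, hs, (hc hs).2.2.2 g a ha⟩)
  obtain ⟨⟨hCB, hC1, hCm, hCc⟩, hmax⟩ := hC
  refine ⟨C, hCB, hC1, hCm, hCc, ?_⟩
  -- `op` preserves `C`
  have hopC : ∀ l : List Q, l ≠ [] → ∀ c ∈ C, op l c ∈ C := by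
    intro l hl c hc
    induction l with
    | nil => exact absurd rfl hl
    | cons g l ih =>
      rw [op_cons]
      by_cases hl' : l = []
      · subst hl'
        rw [op_nil, mul_one]
        exact hCc g c hc
      · exact hCm _ (hCc g c hc) _ (ih hl')
  -- the extension by an element
  have key : ∀ v ∈ B, v ≠ 1 → v ∉ C → ∃ c ∈ C, ∃ l : List Q, l ≠ [] ∧ c * op l v = 1 := by
    intro v hv hv1 hvC
    by_contra hcon
    push Not at hcon
    let D : Set Q := {x | ∃ l : List Q, (l ≠ [] ∧ x = op l v) ∨ ∃ c ∈ C, x = c * op l v}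
    have hD : D ∈ F := by
      refine ⟨?_, ?_, ?_, ?_⟩
      · rintro x ⟨l, ⟨-, rfl⟩ | ⟨c, hc, rfl⟩⟩
        · exact op_mem B l hv
        · exact B.mul_mem (hCB hc) (op_mem B l hv)
      · rintro ⟨l, ⟨hl, h⟩ | ⟨c, hc, h⟩⟩
        · exact hop v hv hv1 l hl h.symm
        · by_cases hl : l = []
          · subst hl
            rw [op_nil, mul_one] at h
            exact hC1 (h ▸ hc)
          · exact hcon c hc l hl h.symm
      · rintro x ⟨l, ⟨hl, rfl⟩ | ⟨c, hc, rfl⟩⟩ y ⟨l', ⟨hl', rfl⟩ | ⟨c', hc', rfl⟩⟩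
        · exact ⟨l ++ l', Or.inl ⟨by simp [hl], (op_append l l' v).symm⟩⟩
        · refine ⟨l ++ l', Or.inr ⟨c', hc', ?_⟩⟩
          rw [op_append, ← mul_assoc, hB _ (op_mem B l hv) _ (hCB hc'), mul_assoc]
        · refine ⟨l ++ l', Or.inr ⟨c, hc, ?_⟩⟩
          rw [op_append, mul_assoc]
        · refine ⟨l ++ l', Or.inr ⟨c * c', hCm c hc c' hc', ?_⟩⟩
          rw [op_append]
          have h1 := hB _ (op_mem B l hv) _ (hCB hc')
          calc c * op l v * (c' * op l' v) = c * (op l v * c') * op l' v := by group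
            _ = c * (c' * op l v) * op l' v := by rw [h1]
            _ = _ := by group
      · rintro g x ⟨l, ⟨hl, rfl⟩ | ⟨c, hc, rfl⟩⟩
        · exact ⟨l.map (fun h => g * h), Or.inl ⟨by simp [hl], op_conj l v g⟩⟩
        · refine ⟨l.map (fun h => g * h), Or.inr ⟨g * c * g⁻¹, hCc g c hc, ?_⟩⟩
          rw [← op_conj]
          group
    have hCD : C ⊆ D := fun c hc => ⟨[], Or.inr ⟨c, hc, by simp⟩⟩
    have hDC : D ⊆ C := hmax hD hCD
    exact hvC (hDC ⟨[1], Or.inl ⟨by simp, by simp [op_cons]⟩⟩)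
  intro b hb hb1
  by_contra hno
  push Not at hno
  obtain ⟨c, hc, l, hl, h1⟩ := key b hb hb1 hno.1
  obtain ⟨c', hc', l', hl', h2⟩ := key b⁻¹ (B.inv_mem hb) (by simpa using hb1) hno.2
  rw [op_inv B hB l' hb] at h2
  have e1 : op l b = c⁻¹ := eq_inv_of_mul_eq_one_right h1
  have e2 : op l' b = c' := by
    rw [mul_inv_eq_one] at h2
    exact h2.symm
  have h3 := op_op B hB hQ l l' hb
  rw [e1, e2, op_inv B hB l' (hCB hc)] at h3
  have h4 : op l c' * op l' c = 1 := by rw [h3, inv_mul_cancel]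
  exact hC1 (h4 ▸ hCm _ (hopC l hl c' hc') _ (hopC l' hl' c hc))

end comm

end Pool.Agent.R804.OrdSol
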